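import Pool.Agent.helper55.NM.Spec

set_option autoImplicit false

namespace Pool.Agent.helper57.NM

open Pool.Agent.NM Finset Nat

private theorem ASY_num (ε u η D δ : ℝ) (hε : 0 < ε) (hε1 : ε ≤ 1 / 12) (hu : 4 / 9 ≤ u) (hη : η ≤ ε / 9)
    (hD : 1 - ε / 8 ≤ D) (hδ : δ ≤ ε / 18) : ((1 - ε) * u + η) / D + δ ≤ u := by
  have hD0 : 0 < D := by linarith
  have h1 : ((1 - ε) * u + η) / D ≤ (1 - ε / 8) * u := by
    rw [div_le_iff₀ hD0]
    have h2 : (1 - ε) * u + η ≤ (1 - 3 * ε / 4) * u := by nlinarith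
    have h3 : (1 - 3 * ε / 4) * u ≤ ((1 - ε / 8) * (1 - ε / 8)) * u :=
      mul_le_mul_of_nonneg_right (by nlinarith) (by linarith)
    have h4 : (1 - ε / 8) * u * (1 - ε / 8) ≤ (1 - ε / 8) * u * D :=
      mul_le_mul_of_nonneg_left hD (mul_nonneg (by linarith) (by linarith))
    nlinarith
  nlinarith

private theorem ASY_bin (m j : ℕ) (hj : j ≤ m + 1) :
    ((m + 2).choose (j + 1) : ℝ) * (((j : ℝ) + 1) * ((m : ℝ) + 1 - j)) =
      ((m : ℝ) + 2) * ((m : ℝ) + 1) * (m.choose j : ℝ) := by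
  have e1 : ((m : ℝ) + 2) * ((m + 1).choose j : ℝ) = ((m + 2).choose (j + 1) : ℝ) * ((j : ℝ) + 1) := by
    have := Nat.add_one_mul_choose_eq (m + 1) j
    have h2 : ((m + 1 + 1) * (m + 1).choose j : ℕ) = (m + 1 + 1).choose (j + 1) * (j + 1) := this
    have h3 : (((m + 1 + 1) * (m + 1).choose j : ℕ) : ℝ) = (((m + 1 + 1).choose (j + 1) * (j + 1) : ℕ) : ℝ) := by
      rw [h2]
    push_cast at h3
    linarith
  have e2 : (m.choose j : ℝ) * ((m : ℝ) + 1) = ((m + 1).choose j : ℝ) * ((m : ℝ) + 1 - j) := by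
    have h2 := Nat.choose_mul_succ_eq m j
    have h3 : ((m.choose j * (m + 1) : ℕ) : ℝ) = (((m + 1).choose j * (m + 1 - j) : ℕ) : ℝ) := by
      rw [h2]
    rw [Nat.cast_mul, Nat.cast_mul, Nat.cast_sub hj] at h3
    push_cast at h3
    linarith
  calc ((m + 2).choose (j + 1) : ℝ) * (((j : ℝ) + 1) * ((m : ℝ) + 1 - j))
      = ((m + 2).choose (j + 1) : ℝ) * ((j : ℝ) + 1) * ((m : ℝ) + 1 - j) := by ring
    _ = ((m : ℝ) + 2) * (((m + 1).choose j : ℝ) * ((m : ℝ) + 1 - j)) := by rw [← e1]; ring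
    _ = ((m : ℝ) + 2) * ((m : ℝ) + 1) * (m.choose j : ℝ) := by rw [← e2]; ring

theorem ASY : ASY_stmt := by
  intro ε p hε
  rcases lt_or_ge (1 / 12 : ℝ) ε with hbig | hsmall
  · refine ⟨0, 0, fun q k _ h1 h2 => ?_⟩
    exfalso; linarith
  obtain ⟨L, hL⟩ := exists_pow_lt_of_lt_one (show 0 < ε / 9 by positivity)
    (show 1 - 2 * ε < 1 by linarith)
  obtain ⟨n0, hn0⟩ := exists_nat_ge (3 * ((p : ℝ) + L) + 3 + p / ε + 8 * ((p : ℝ) ^ 2 + 1) / ε +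
    54 * (2 ^ p * (((p : ℝ) + 1) * ((p : ℝ) + L))) / ε)
  refine ⟨L, n0, fun q k hn h1 h2 => ?_⟩
  have hx : (n0 : ℝ) ≤ (p : ℝ) + q := by exact_mod_cast hn
  set x : ℝ := (p : ℝ) + q with hxdef
  have p0 : (0 : ℝ) ≤ p := Nat.cast_nonneg _
  have L0 : (0 : ℝ) ≤ L := Nat.cast_nonneg _
  have n2 : 0 ≤ (p : ℝ) / ε := by positivity
  have n3 : 0 ≤ 8 * ((p : ℝ) ^ 2 + 1) / ε := by positivity
  have n4 : 0 ≤ 54 * (2 ^ p * (((p : ℝ) + 1) * ((p : ℝ) + L))) / ε := by positivity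
  have t1 : 3 * ((p : ℝ) + L) + 3 ≤ x := by linarith
  have t2 : (p : ℝ) ≤ x * ε := by rw [← div_le_iff₀ hε]; linarith
  have t3 : 8 * ((p : ℝ) ^ 2 + 1) ≤ x * ε := by rw [← div_le_iff₀ hε]; linarith
  have t4 : 54 * (2 ^ p * (((p : ℝ) + 1) * ((p : ℝ) + L))) ≤ x * ε := by
    rw [← div_le_iff₀ hε]; linarith
  have hx0 : 0 < x := by linarith
  have hk1 : (1 / 3 + ε) * x ≤ k := by rwa [le_div_iff₀ hx0] at h1
  have hk2 : (k : ℝ) ≤ (1 / 2 - ε) * x := by rwa [div_le_iff₀ hx0] at h2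
  have hεx : 0 < ε * x := by positivity
  have hk3 : x / 3 ≤ k := by linarith
  have c1 : p + L ≤ k := by
    have : (p : ℝ) + L ≤ k := by linarith
    exact_mod_cast this
  have c2 : 1 ≤ k := by
    have : (1 : ℝ) ≤ k := by linarith
    exact_mod_cast this
  have c3 : 2 * k ≤ q := by
    have : 2 * (k : ℝ) ≤ q := by
      have : (q : ℝ) = x - p := by rw [hxdef]; ring
      nlinarith
    exact_mod_cast this
  have c4 : p ^ 2 < p + q := by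
    have : (p : ℝ) ^ 2 < (p : ℝ) + q := by nlinarith
    exact_mod_cast this
  have c5 : (k : ℝ) ≤ (1 - 2 * ε) * ((q : ℝ) - k) := by
    have hq : (q : ℝ) = x - p := by rw [hxdef]; ring
    rw [hq]
    have h5 : 0 ≤ (1 - 2 * ε) * (x * ε - p) := mul_nonneg (by linarith) (by linarith)
    have h6 : (k : ℝ) * (2 - 2 * ε) ≤ (1 / 2 - ε) * x * (2 - 2 * ε) :=
      mul_le_mul_of_nonneg_right hk2 (by linarith)
    nlinarith
  refine ⟨c1, c2, c3, c4, c5, ?_⟩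
  have hk0 : (0 : ℝ) < k := by linarith
  have hD : 1 - ε / 8 ≤ 1 - (p : ℝ) ^ 2 / x := by
    have : (p : ℝ) ^ 2 / x ≤ ε / 8 := by rw [div_le_iff₀ hx0]; linarith
    linarith
  have hδ : (((p : ℝ) + 1) * ((p : ℝ) + L)) / k * 2 ^ p ≤ ε / 18 := by
    rw [div_mul_eq_mul_div, div_le_iff₀ hk0]
    nlinarith
  have hρ1 : 1 / 3 ≤ (k : ℝ) / x := by linarith
  have hρ2 : (k : ℝ) / x ≤ 1 / 2 := by linarith
  have hu : 4 / 9 ≤ 2 * ((k : ℝ) / x) * (1 - (k : ℝ) / x) := by nlinarith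
  have hnum := ASY_num ε (2 * ((k : ℝ) / x) * (1 - (k : ℝ) / x)) ((1 - 2 * ε) ^ L)
    (1 - (p : ℝ) ^ 2 / x) ((((p : ℝ) + 1) * ((p : ℝ) + L)) / k * 2 ^ p) hε hsmall hu hL.le hD hδ
  have hcq : (q.choose k : ℝ) ≤ ((p + q).choose k : ℝ) := by
    exact_mod_cast Nat.choose_le_choose k (Nat.le_add_left q p)
  have hc0 : (0 : ℝ) ≤ ((p + q).choose k : ℝ) := Nat.cast_nonneg _
  have hlast : 2 * ((k : ℝ) / x) * (1 - (k : ℝ) / x) * ((p + q).choose k : ℝ) ≤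
      2 * ((p + q - 2).choose (k - 1) : ℝ) := by
    have h3 : 3 ≤ p + q := by
      have : (3 : ℝ) ≤ (p : ℝ) + q := by rw [← hxdef]; linarith
      exact_mod_cast this
    obtain ⟨m, hm⟩ : ∃ m, p + q = m + 2 := ⟨p + q - 2, by omega⟩
    obtain ⟨j, hj⟩ : ∃ j, k = j + 1 := ⟨k - 1, by omega⟩
    have hxm : x = (m : ℝ) + 2 := by rw [hxdef]; exact_mod_cast hm
    have hkj : (k : ℝ) = (j : ℝ) + 1 := by rw [hj]; push_cast; ring
    have hb := ASY_bin m j (by omega)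
    rw [hm, hj, show m + 2 - 2 = m by omega, show j + 1 - 1 = j by omega]
    have hm0 : (0 : ℝ) ≤ m := Nat.cast_nonneg _
    have hC0 : (0 : ℝ) ≤ (m.choose j : ℝ) := Nat.cast_nonneg _
    have hx1 : (m : ℝ) + 2 ≠ 0 := by positivity
    have hr : 2 * (((j + 1 : ℕ) : ℝ) / x) * (1 - ((j + 1 : ℕ) : ℝ) / x) * ((m + 2).choose (j + 1) : ℝ) =
        2 * (((m + 2).choose (j + 1) : ℝ) * (((j : ℝ) + 1) * ((m : ℝ) + 1 - j))) / (((m : ℝ) + 2) * ((m : ℝ) + 2)) := by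
      rw [hxm]
      push_cast
      field_simp
      ring
    rw [hr, hb, div_le_iff₀ (by positivity)]
    nlinarith [mul_nonneg hC0 hm0, mul_nonneg hC0 (mul_nonneg hm0 hm0)]
  have hB0 : 0 ≤ (((p : ℝ) + 1) * ((p : ℝ) + L)) / k * 2 ^ p := by positivity
  calc _ = ((1 - ε) * (2 * ((k : ℝ) / x) * (1 - (k : ℝ) / x)) + (1 - 2 * ε) ^ L) / (1 - (p : ℝ) ^ 2 / x) *
          ((p + q).choose k : ℝ) + (((p : ℝ) + 1) * ((p : ℝ) + L)) / k * 2 ^ p * (q.choose k : ℝ) := by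
        push_cast
        ring
    _ ≤ ((1 - ε) * (2 * ((k : ℝ) / x) * (1 - (k : ℝ) / x)) + (1 - 2 * ε) ^ L) / (1 - (p : ℝ) ^ 2 / x) *
          ((p + q).choose k : ℝ) + (((p : ℝ) + 1) * ((p : ℝ) + L)) / k * 2 ^ p * ((p + q).choose k : ℝ) := by
        have := mul_le_mul_of_nonneg_left hcq hB0
        linarith
    _ = (((1 - ε) * (2 * ((k : ℝ) / x) * (1 - (k : ℝ) / x)) + (1 - 2 * ε) ^ L) / (1 - (p : ℝ) ^ 2 / x) +
          (((p : ℝ) + 1) * ((p : ℝ) + L)) / k * 2 ^ p) * ((p + q).choose k : ℝ) := by ring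
    _ ≤ 2 * ((k : ℝ) / x) * (1 - (k : ℝ) / x) * ((p + q).choose k : ℝ) :=
        mul_le_mul_of_nonneg_right hnum hc0
    _ ≤ _ := hlast

end Pool.Agent.helper57.NM
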